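import Pool.Agent.H.MP_2eb075_an.A

namespace Pool.Agent.Results.MP_2eb075_an.No

open Set Filter Topology Metric MeasureTheory
open scoped ComplexConjugate

/-- `ℂ²` with the Euclidean norm -/
abbrev E := EuclideanSpace ℂ (Fin 2)

/-- the class `N_A` for `A = diag(l, 1)` -/
def NA (l : ℝ) (h : E → E) : Prop :=
  DifferentiableOn ℂ h (ball 0 1) ∧ h 0 = 0 ∧ (∀ u, fderiv ℂ h 0 u = !₂[l * u 0, u 1]) ∧
    ∀ z ∈ ball (0 : E) 1, z ≠ 0 → 0 < (h z 0 * conj (z 0) + h z 1 * conj (z 1)).re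

/-- the class `S_A^0` for `A = diag(l, 1)` -/
def S0 (l : ℝ) (f : E → E) : Prop :=
  DifferentiableOn ℂ f (ball 0 1) ∧ f 0 = 0 ∧ (∀ u, fderiv ℂ f 0 u = u) ∧
  ∃ h : E → ℝ → E, (∀ᵐ t ∂volume.restrict (Ici 0), NA l fun z => h z t) ∧
    (∀ z ∈ ball (0 : E) 1, Measurable (h z)) ∧ ∃ v : E → ℝ → E,
      (∀ z ∈ ball (0 : E) 1, v z 0 = z ∧ (∀ t ≥ 0, v z t ∈ ball (0 : E) 1) ∧
        (∀ T ≥ 0, AbsolutelyContinuousOnInterval (v z) 0 T) ∧
        ∀ᵐ t ∂volume.restrict (Ici 0), HasDerivAt (v z) (-h (v z t) t) t) ∧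
      TendstoLocallyUniformlyOn (fun (t : ℝ) z => (!₂[Real.exp (t * l) * v z t 0,
        Real.exp t * v z t 1] : E)) f atTop (ball 0 1)

open Pool.Agent.H.MP_2eb075_an

lemma mk (x y : ℂ) : (!₂[x, y] : E) = x • EuclideanSpace.single 0 1 + y • EuclideanSpace.single 1 1 := by
  ext i; fin_cases i <;> simp

lemma nsq (z : E) : ‖z‖ ^ 2 = ‖z 0‖ ^ 2 + ‖z 1‖ ^ 2 := by
  rw [EuclideanSpace.norm_sq_eq, Fin.sum_univ_two]

lemma fd (l : ℂ) {p q : E → ℂ} (hp : DifferentiableAt ℂ p 0) (hq : DifferentiableAt ℂ q 0)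
    (a : ℂ) (p0 : p 0 = 0) (u : E) : fderiv ℂ (fun z : E => (!₂[l * z 0 + a * z 1 ^ 2 +
      p z ^ 2 * q z, z 1] : E)) 0 u = !₂[l * u 0, u 1] := by
  have h := fun i => (EuclideanSpace.proj i : E →L[ℂ] ℂ).hasFDerivAt (x := (0 : E))
  have := (((((h 0).const_mul l).add (((h 1).pow 2).const_mul a)).add ((hp.hasFDerivAt.pow 2).mul
    hq.hasFDerivAt)).smul_const (EuclideanSpace.single 0 1 : E)).add ((h 1).smul_const (EuclideanSpace.single 1 1 : E))
  simp only [mk]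
  erw [this.fderiv]
  simp [p0]

lemma mem {l a c κ ε M : ℝ} (l1 : 1 ≤ l) (l2 : l < 2) (a0 : 0 < a) (c0 : 0 < c) (hk : 2 * c * κ ≤ a)
    (hκ : ∀ x s : ℝ, 0 ≤ x → 0 ≤ s → x ^ 2 + s < 1 →
      0 < x ^ 2 + s → κ * (x - c * s) ^ 2 < l * x ^ 2 + s - a * x * s)
    (h : 24 * |ε| * M ^ 2 ≤ 1) (hM : 2 * (1 + c) + 2 * (a / (2 - l) + c) < M)
    (h' : |ε| * (3 * (a + c) + 4 * (1 + c)) * 2 ≤ κ) : S0 l fun z => !₂[z 0 + (a / (2 - l) : ℝ) *
      z 1 ^ 2 + (z 0 - c * z 1 ^ 2) ^ 2 * (ε * (z 0 - c * z 1 ^ 2)), z 1] := by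
  set b := a / (2 - l) with hb
  have b0 : 0 < b := div_pos a0 (sub_pos.2 l2)
  have ha : (a : ℂ) = b * (2 - l) := by exact_mod_cast (div_mul_cancel₀ a (sub_pos.2 l2).ne').symm
  have z1 : ∀ z ∈ ball (0 : E) 1, ‖z 0‖ ^ 2 + ‖z 1‖ ^ 2 < 1 := fun z hz => by
    rw [← nsq]; exact pow_lt_one₀ (norm_nonneg _) (mem_ball_zero_iff.1 hz) two_ne_zero
  have w1 : ∀ z ∈ ball (0 : E) 1, ‖z 1‖ ^ 2 ≤ 1 ∧ ‖z 0 - c * z 1 ^ 2‖ ≤ 1 + c := fun z hz => by
    have := z1 z hz
    have x1 : ‖z 0‖ ≤ 1 := by nlinarith [norm_nonneg (z 0), sq_nonneg ‖z 1‖]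
    have y1 : ‖z 1‖ ^ 2 ≤ 1 := by nlinarith [sq_nonneg ‖z 0‖]
    exact ⟨y1, (norm_sub_le _ _).trans (by
      rw [norm_mul, norm_pow, Complex.norm_real, Real.norm_of_nonneg c0.le]; nlinarith)⟩
  have dn : ∀ u : ℂ, ‖u‖ ≤ 2 * M → 1 + 3 * ε * u ^ 2 ≠ 0 := fun u hu =>
    norm_pos_iff.1 (one_half_pos.trans_le (den h hu))
  have dh : DifferentiableOn ℂ (fun z : E => (!₂[hh l a c ε (z 0) (z 1), z 1] : E)) (ball 0 1) :=
    fun z hz => by
      have := dn _ ((w1 z hz).2.trans (by linarith))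
      simp only [mk, hh]
      exact DifferentiableAt.differentiableWithinAt (by fun_prop (disch := assumption))
  have na : NA l fun z : E => (!₂[hh l a c ε (z 0) (z 1), z 1] : E) := by
    refine ⟨dh, by simp [hh], fun u => ?_, fun z hz z0 => ?_⟩
    · have := fd l (p := fun z : E => z 0 - c * z 1 ^ 2)
        (q := fun z : E => ε * (3 * (a + (2 - l) * c) * z 1 ^ 2 - 2 * l * (z 0 - c * z 1 ^ 2)) /
          (1 + 3 * ε * (z 0 - c * z 1 ^ 2) ^ 2)) (by fun_prop) (by fun_prop (disch := simp)) (-a)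
            (by simp) u
      simp only [neg_mul, ← sub_eq_add_neg] at this
      exact this
    · have := pos l1 l2 a0 c0 hk hκ h (by linarith) h' (z1 z hz) (by rw [← nsq]; positivity)
      simpa [Complex.mul_conj', ← Complex.ofReal_pow] using this
  obtain ⟨ψ, hψ, hψ'⟩ := inv h
  let G : E → ℂ := fun z => z 0 - c * z 1 ^ 2 + ε * (z 0 - c * z 1 ^ 2) ^ 3 + (b + c) * z 1 ^ 2
  let U : E → ℂ → ℂ := fun z t => Complex.exp (-(t * l)) * G z - (b + c) * (Complex.exp (-t) * z 1) ^ 2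
  have hU : ∀ z ∈ ball (0 : E) 1, ∀ t : ℝ, 0 ≤ t → ‖U z t‖ < M * Real.exp (-(t * l)) ∧
      ‖U z t‖ < M := fun z hz t t0 => by
    obtain ⟨h1, h2⟩ := w1 z hz
    have e1 : ‖((b + c : ℝ) : ℂ) * z 1 ^ 2‖ ≤ b + c := by
      rw [norm_mul, norm_pow, Complex.norm_real, Real.norm_of_nonneg (by positivity)]
      exact mul_le_of_le_one_right (by positivity) h1
    have e2 := bil h (h2.trans (by linarith)) (v := 0) (by rw [norm_zero]; linarith)
    simp only [ne_eq, OfNat.ofNat_ne_zero, not_false_eq_true, zero_pow, mul_zero, sub_zero] at e2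
    have e3 : ‖G z‖ ≤ 2 * (1 + c) + (b + c) := norm_add₃_le.trans (by
      push_cast at e1; linarith)
    have e4 : Real.exp (-t) ^ 2 ≤ Real.exp (-(t * l)) := by
      rw [← Real.exp_nat_mul]; gcongr; push_cast; nlinarith
    have e5 : ‖U z t‖ < M * Real.exp (-(t * l)) := by
      refine (norm_sub_le _ _).trans_lt ?_
      rw [mul_pow, mul_left_comm, norm_mul, norm_mul, norm_pow, ← Complex.ofReal_mul,
        ← Complex.ofReal_neg, ← Complex.ofReal_neg, Complex.norm_exp_ofReal,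
        Complex.norm_exp_ofReal, ← Complex.ofReal_add]
      have := Real.exp_pos (-(t * l))
      nlinarith [mul_le_mul e4 e1 (norm_nonneg _) this.le]
    exact ⟨e5, e5.trans_le (mul_le_of_le_one_right (by linarith) (Real.exp_le_one_iff.2 (by
      nlinarith)))⟩
  have hv : ∀ z ∈ ball (0 : E) 1, ∀ t : ℝ, 0 ≤ t → HasDerivAt (fun t : ℝ => ψ (U z t) + c *
      (Complex.exp (-t) * z 1) ^ 2) (-hh l a c ε (ψ (U z t) + c * (Complex.exp (-t) * z 1) ^ 2)
        (Complex.exp (-t) * z 1)) t ∧ HasDerivAt (fun t : ℝ => Complex.exp (-t) * z 1)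
          (-(Complex.exp (-t) * z 1)) t := fun z hz t t0 => by
    obtain ⟨h1, h2, h3⟩ := hψ _ (hU z hz t t0).2
    have d1 := ((hasDerivAt_neg' (t : ℂ)).cexp.mul_const (z 1))
    have d2 := ((hasDerivAt_mul_const (x := (t : ℂ)) (l : ℂ)).neg.cexp.mul_const (G z)).sub
      ((d1.pow 2).const_mul (b + c : ℂ))
    refine ⟨((h3.comp (t : ℂ) d2).add ((d1.pow 2).const_mul (c : ℂ))).comp_ofReal.congr_deriv ?_,
      d1.comp_ofReal.congr_deriv (by ring)⟩
    have := dn _ (h1.trans (mul_le_mul_of_nonneg_left (hU z hz t t0).2.le zero_le_two))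
    have e : Complex.exp (-(t * l)) * G z = ψ (U z t) + ε * ψ (U z t) ^ 3 +
        (b + c) * (Complex.exp (-t) * z 1) ^ 2 := by rw [h2]; simp [U]
    simp only [hh, add_sub_cancel_right, ha, Pi.neg_apply]
    rw [mul_right_comm _ _ (G z), e]
    field_simp
    ring
  have v0 : ∀ z ∈ ball (0 : E) 1, ψ (U z 0) = z 0 - c * z 1 ^ 2 := fun z hz => by
    have := (hU z hz 0 le_rfl).2
    simp only [U, G, Complex.ofReal_zero, zero_mul, neg_zero, Complex.exp_zero, one_mul,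
      add_sub_cancel_right] at this ⊢
    exact hψ' _ ((w1 z hz).2.trans (by linarith)) this
  refine ⟨Differentiable.differentiableOn (by simp only [mk]; fun_prop), by simp, fun u => ?_, fun z _ => !₂[hh l a c ε (z 0) (z 1), z 1],
    .of_forall fun _ => na, fun _ _ => measurable_const, fun z t => !₂[ψ (U z t) + c *
      (Complex.exp (-t) * z 1) ^ 2, Complex.exp (-t) * z 1], fun z hz => ?_, ?_⟩
  · have := fd 1 (p := fun z : E => z 0 - c * z 1 ^ 2) (q := fun z : E => ε * (z 0 - c * z 1 ^ 2))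
      (by fun_prop) (by fun_prop) b (by simp) u
    simp only [one_mul] at this
    rw [this]
    ext i; fin_cases i <;> simp
  · set v : ℝ → E := fun t => !₂[ψ (U z t) + c * (Complex.exp (-t) * z 1) ^ 2,
      Complex.exp (-t) * z 1] with hv'
    have d : ∀ t ≥ 0, HasDerivAt v (-!₂[hh l a c ε (v t 0) (v t 1), v t 1]) t := fun t t0 => by
      have := ((hv z hz t t0).1.smul_const (EuclideanSpace.single 0 1 : E)).add
        ((hv z hz t t0).2.smul_const (EuclideanSpace.single 1 1 : E))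
      refine (this.congr_of_eventuallyEq (.of_forall fun t => mk _ _)).congr_deriv ?_
      rw [mk, neg_add, neg_smul, neg_smul]; rfl
    have i : v 0 = z := by ext i; fin_cases i <;> simp [hv', v0 z hz]
    have m : ∀ t ≥ 0, v t ∈ ball (0 : E) 1 := fun t t0 => by
      obtain ⟨r, r1, r2⟩ := exists_between (z1 z hz)
      have := image_le_of_deriv_right_lt_deriv_boundary (f := fun t => ‖v t 0‖ ^ 2 + ‖v t 1‖ ^ 2)
        (fun s hs => ((hv z hz s hs.1).1.norm_sq.add (hv z hz s hs.1).2.norm_sq).continuousAt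
          |>.continuousWithinAt) (fun s hs => ((hv z hz s hs.1).1.norm_sq.add
            (hv z hz s hs.1).2.norm_sq).hasDerivWithinAt) (by rw [i]; exact r1.le)
        (fun s => hasDerivAt_const s r) (fun s _ e => ?_) (right_mem_Icc.2 t0)
      · rw [mem_ball_zero_iff, ← sq_lt_one_iff₀ (norm_nonneg _), nsq]
        exact this.trans_lt r2
      have := pos l1 l2 a0 c0 hk hκ h (by linarith) h' (e.trans_lt r2) (e ▸ lt_of_le_of_lt
        (by positivity) r1)
      simp only [inner_neg_right, real_inner_self_eq_norm_sq]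
      rw [Complex.inner]
      exact (by linarith : 2 * -(hh l a c ε (v s 0) (v s 1) * conj (v s 0)).re + 2 * -‖v s 1‖ ^ 2 < 0)
    refine ⟨i, m, fun T T0 => ?_, (ae_restrict_mem measurableSet_Ici).mono d⟩
    obtain ⟨C, hC⟩ := (isCompact_Icc (a := 0) (b := T)).exists_bound_of_continuousOn
      (dh.continuousOn.comp (fun t ht => (d t ht.1).continuousAt.continuousWithinAt)
        fun t ht => m t ht.1)
    rw [← uIcc_of_le T0] at hC
    refine (Convex.lipschitzOnWith_of_nnnorm_hasDerivWithin_le (C := C.toNNReal) (convex_uIcc _ _)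
      (fun t ht => (d t ?_).hasDerivWithinAt) fun t ht => ?_).absolutelyContinuousOnInterval
    · exact (uIcc_of_le T0 ▸ ht).1
    · rw [nnnorm_neg]
      exact (hC t ht).trans (Real.le_coe_toNNReal C)
  refine (Metric.tendstoUniformlyOn_iff.2 fun δ δ0 => ?_).tendstoLocallyUniformlyOn
  have t1 : Tendsto (fun t : ℝ => b * Real.exp (t * (l - 2)) + M * Real.exp (-t)) atTop
      (𝓝 (b * 0 + M * 0)) := ((Real.tendsto_exp_atBot.comp (tendsto_id.atTop_mul_const_of_neg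
        (by linarith))).const_mul b).add (Real.tendsto_exp_neg_atTop_nhds_zero.const_mul M)
  filter_upwards [t1.eventually_lt_const (by simpa using δ0), eventually_ge_atTop 0] with t ht t0 z hz
  obtain ⟨h1, h2, -⟩ := hψ _ (hU z hz t t0).2
  have e : Complex.exp (-(t * l)) * G z = ψ (U z t) + ε * ψ (U z t) ^ 3 +
      (b + c) * (Complex.exp (-t) * z 1) ^ 2 := by rw [h2]; simp [U]
  have x1 : (Real.exp t : ℂ) * Complex.exp (-t) = 1 := by simp [← Complex.exp_add]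
  have x2 : (Real.exp (t * l) : ℂ) * Complex.exp (-(t * l)) = 1 := by simp [← Complex.exp_add]
  have x3 : (Real.exp (t * l) : ℂ) * Complex.exp (-t) ^ 2 = Real.exp (t * (l - 2)) := by
    rw [← Complex.exp_nat_mul]; push_cast; rw [← Complex.exp_add]; ring_nf
  refine lt_of_le_of_lt ?_ ht
  rw [dist_eq_norm, show _ - _ = (b * Real.exp (t * (l - 2)) * z 1 ^ 2 + Real.exp (t * l) *
    (ε * ψ (U z t) ^ 3)) • (EuclideanSpace.single 0 1 : E) by
      ext i; fin_cases i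
      · simp only [G] at e
        simp [-Complex.ofReal_exp]
        linear_combination (-(z 0 - c * z 1 ^ 2 + ε * (z 0 - c * z 1 ^ 2) ^ 3 + (b + c) * z 1 ^ 2)) * x2 +
          Real.exp (t * l) * e + b * z 1 ^ 2 * x3
      · simp [-Complex.ofReal_exp]
        linear_combination (-z 1) * x1, norm_smul, PiLp.norm_single, norm_one, mul_one]
  refine (norm_add_le _ _).trans (add_le_add ?_ ?_)
  · simp only [norm_mul, norm_pow, Complex.norm_real, Real.norm_of_nonneg b0.le,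
      Real.norm_of_nonneg (Real.exp_pos _).le]
    exact mul_le_of_le_one_right (by positivity) (w1 z hz).1
  have p := h1.trans (mul_le_mul_of_nonneg_left (hU z hz t t0).1.le zero_le_two)
  have y1 : Real.exp (t * l) * Real.exp (-(t * l)) = 1 := by simp [← Real.exp_add]
  have y2 : Real.exp (-(t * l)) ≤ Real.exp (-t) := by gcongr; nlinarith
  have y3 : Real.exp (-(t * l)) ≤ 1 := Real.exp_le_one_iff.2 (by nlinarith)
  have M0 : 0 < M := by linarith
  simp only [norm_mul, norm_pow, Complex.norm_real, Real.norm_of_nonneg (Real.exp_pos _).le,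
    Real.norm_eq_abs]
  calc _ ≤ Real.exp (t * l) * (|ε| * (2 * (M * Real.exp (-(t * l)))) ^ 3) := by gcongr
    _ = 8 * |ε| * M ^ 2 * Real.exp (-(t * l)) * (M * Real.exp (-(t * l))) := by
        linear_combination 8 * |ε| * M ^ 3 * Real.exp (-(t * l)) ^ 2 * y1
    _ ≤ 1 * 1 * (M * Real.exp (-t)) := by gcongr; nlinarith [abs_nonneg ε, sq_nonneg M]
    _ = _ := by ring

theorem result (l a : ℝ) (l1 : 1 ≤ l) (l2 : l < 2) (ha : IsGreatest {a : ℝ | 0 < a ∧ ∀ x y : ℝ,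
    0 ≤ x → 0 ≤ y → x ^ 2 + y ^ 2 ≤ 1 → 0 ≤ l * x ^ 2 + y ^ 2 - a * x * y ^ 2} a) :
    ∃ g k : E → E, S0 l g ∧ S0 l k ∧
      (∀ z ∈ ball (0 : E) 1, (!₂[z 0 + (a / (2 - l) : ℝ) * z 1 ^ 2, z 1] : E) =
        (1 / 2 : ℂ) • g z + (1 / 2 : ℂ) • k z) ∧
      ∃ z ∈ ball (0 : E) 1, g z ≠ !₂[z 0 + (a / (2 - l) : ℝ) * z 1 ^ 2, z 1] := by
  obtain ⟨c, κ, c0, k0, hk, hκ⟩ := real l1 ha
  obtain ⟨ε, ⟨h1, h2⟩, h3⟩ := ((((Continuous.continuousWithinAt (s := Ioi 0) (x := (0 : ℝ))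
    (f := fun ε => 24 * |ε| * (2 * (1 + c) + 2 * (a / (2 - l) + c) + 1) ^ 2)
      (by fun_prop)).eventually_lt_const (u := 1) (by simp)).and ((Continuous.continuousWithinAt
        (s := Ioi 0) (x := (0 : ℝ)) (f := fun ε => |ε| * (3 * (a + c) + 4 * (1 + c)) * 2)
        (by fun_prop)).eventually_lt_const (by simpa using k0))).and self_mem_nhdsWithin).exists
  refine ⟨_, _, mem l1 l2 ha.1.1 c0 hk hκ h1.le (lt_add_one _) h2.le, mem (ε := -ε) l1 l2 ha.1.1 c0 hk
    hκ (by rw [abs_neg]; exact h1.le) (lt_add_one _) (by rw [abs_neg]; exact h2.le), fun z _ => ?_,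
    EuclideanSpace.single 0 (1 / 2), by norm_num, fun e => ?_⟩
  · ext i; fin_cases i <;> simp <;> ring
  · simpa [ne_of_gt h3] using congrArg (fun z : E => z 0) e

end Pool.Agent.Results.MP_2eb075_an.No
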